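import Mathlib

/-!
# Point blow-ups of triples (H, F, p): at most 2 ^ rank classes downstairs

`F` is the cubic form of a symmetric trilinear form on an additive group `H`.  A triple
`(A, F0, p0)` has `(H, F, p)` as blow-up in `k` points when `H = A + Z^k` with
`F (a, t) = F0 a + sum t_j ^ 3` and `p (a, t) = p0 a + 4 sum t_j`.
-/

namespace Pool.Agent.MP77.H10

open Finset Module

/-- `F` is the cubic form of a symmetric trilinear form. -/
def IsCubic {H : Type*} [AddCommGroup H] (F : H → ℤ) : Prop :=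
  ∃ B : H →+ H →+ H →+ ℤ, (∀ x y z, B x y z = B y x z) ∧ (∀ x y z, B x y z = B x z y) ∧
    ∀ x, F x = B x x x

/-- isomorphism of triples. -/
def TIso {A A' : Type*} [AddCommGroup A] [AddCommGroup A'] (F p : A → ℤ) (F' p' : A' → ℤ) :
    Prop :=
  ∃ φ : A ≃+ A', (∀ a, F' (φ a) = F a) ∧ ∀ a, p' (φ a) = p a

/-- `(H, F, p)` is the blow-up of `(A, F0, p0)` in `k` points. -/
def PointBlowUp (k : ℕ) {A H : Type*} [AddCommGroup A] [AddCommGroup H] (F0 p0 : A → ℤ)
    (F p : H → ℤ) : Prop :=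
  ∃ φ : (A × (Fin k → ℤ)) ≃+ H, ∀ a t, F (φ (a, t)) = F0 a + ∑ j, t j ^ 3 ∧
    p (φ (a, t)) = p0 a + 4 * ∑ j, t j

section

variable {H : Type*} [AddCommGroup H] (B : H →+ H →+ H →+ ℤ)

/-- `E` splits off: `B E x y = B E E x * B E E y` and `B E E E = 1`. -/
def Spl (E : H) : Prop := B E E E = 1 ∧ ∀ x y, B E x y = B E E x * B E E y

variable {B}

theorem spl_eq (h12 : ∀ x y z, B x y z = B y x z) (h23 : ∀ x y z, B x y z = B x z y)
    {E E' : H} (hE : Spl B E) (hE' : Spl B E') (h : B E E E' ≠ 0) : B E E = B E' E' := by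
  obtain ⟨h1, h2⟩ := hE
  obtain ⟨h1', h2'⟩ := hE'
  -- B E E' x = l(E') l(x) = l'(E) l'(x)
  have key : ∀ x, B E E E' * B E E x = B E' E' E * B E' E' x := by
    intro x
    rw [← h2, ← h2', h12]
  have a1 := key E
  rw [h1, mul_one] at a1
  have a2 := key E'
  rw [h1', mul_one] at a2
  -- c = l'(E), l(E') = c^2, l(E')^2 = c
  set c := B E' E' E with hc
  set d := B E E E' with hd
  have hc0 : c ≠ 0 := by
    intro h0
    rw [h0, mul_zero] at a1
    exact h a1
  have hc1 : c * c * (c * c) = c := by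
    rw [← a1]; exact a2
  have hc2 : c * c * c = 1 := by
    have : c * (c * c * c) = c * 1 := by linarith [hc1, mul_comm c (c * c * c)]
    exact mul_left_cancel₀ hc0 this
  have hc3 : c = 1 := by
    have hdvd : c ∣ 1 := ⟨c * c, by linarith⟩
    rcases Int.isUnit_iff.1 (isUnit_of_dvd_one hdvd) with h' | h'
    · exact h'
    · rw [h'] at hc2; norm_num at hc2
  ext x
  have := key x
  rw [a1, hc3] at this
  simpa using this

/-- the functionals `B E E` of the splitting vectors. -/
def Lam (B : H →+ H →+ H →+ ℤ) : Set (H →+ ℤ) := {l | ∃ E, Spl B E ∧ B E E = l}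

theorem lam_fin [Module.Finite ℤ H] (h12 : ∀ x y z, B x y z = B y x z)
    (h23 : ∀ x y z, B x y z = B x z y) :
    ∃ L : Finset (H →+ ℤ), (↑L : Set (H →+ ℤ)) = Lam B ∧ L.card ≤ finrank ℤ H := by
  classical
  choose! e he using (fun l (hl : l ∈ Lam B) => hl : ∀ l ∈ Lam B, ∃ E, Spl B E ∧ B E E = l)
  have hval : ∀ l ∈ Lam B, ∀ l' ∈ Lam B, l (e l') = if l = l' then 1 else 0 := by
    intro l hl l' hl'
    split_ifs with h
    · subst h
      have h1 := (he l hl).1.1
      rwa [(he l hl).2] at h1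
    · by_contra hne
      apply h
      have h1 := spl_eq h12 h23 (he l hl).1 (he l' hl').1 (by rw [(he l hl).2]; exact hne)
      rw [(he l hl).2, (he l' hl').2] at h1
      exact h1
  have hli : LinearIndependent ℤ (fun l : Lam B => e l.1) := by
    rw [linearIndependent_iff']
    intro s g hg l hl
    have h1 := congrArg (fun x => l.1 x) hg
    simp only [map_sum, map_zero, map_zsmul] at h1
    rw [Finset.sum_eq_single l] at h1
    · rw [hval _ l.2 _ l.2, if_pos rfl] at h1
      simpa using h1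
    · intro l' _ hne
      rw [hval _ l.2 _ l'.2, if_neg (fun h => hne (Subtype.ext h.symm))]
      simp
    · intro h; exact absurd hl h
  haveI : Finite (Lam B) := hli.finite
  haveI : Fintype (Lam B) := Fintype.ofFinite _
  refine ⟨(Lam B).toFinset, by simp, ?_⟩
  rw [Set.toFinset_card]
  exact hli.fintype_card_le_finrank

end

section Blow

variable {H : Type*} [AddCommGroup H] {B : H →+ H →+ H →+ ℤ} {A : Type*} [AddCommGroup A]
  {k : ℕ} {F0 : A → ℤ} {F : H → ℤ}

theorem polar (h12 : ∀ x y z, B x y z = B y x z) (h23 : ∀ x y z, B x y z = B x z y)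
    (hF : ∀ x, F x = B x x x) (x y z : H) :
    6 * B x y z = F (x + y + z) - F (x + y) - F (y + z) - F (x + z) + F x + F y + F z := by
  have p1 : ∀ a b c, B a c b = B a b c := fun a b c => (h23 a b c).symm
  have p2 : ∀ a b c, B b a c = B a b c := fun a b c => (h12 a b c).symm
  have p3 : ∀ a b c, B b c a = B a b c := fun a b c => by rw [h23 b c a, p2]
  have p4 : ∀ a b c, B c a b = B a b c := fun a b c => by rw [p2, p1]
  have p5 : ∀ a b c, B c b a = B a b c := fun a b c => by rw [h23 c b a, p4]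
  simp only [hF, map_add, AddMonoidHom.add_apply]
  linarith [p1 x y z, p2 x y z, p3 x y z, p4 x y z, p5 x y z, p1 x x y, p3 x x y, p1 x x z,
    p3 x x z, p1 y y x, p3 y y x, p1 y y z, p3 y y z, p1 z z x, p3 z z x, p1 z z y, p3 z z y,
    p2 x y x, p2 x y y, p2 x z x, p2 x z z, p2 y z y, p2 y z z]

/-- the splitting vector of the `j`-th exceptional divisor. -/
theorem blow_spl (h12 : ∀ x y z, B x y z = B y x z) (h23 : ∀ x y z, B x y z = B x z y)
    (hF : ∀ x, F x = B x x x) (φ : (A × (Fin k → ℤ)) ≃+ H)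
    (hφ : ∀ a t, F (φ (a, t)) = F0 a + ∑ j, t j ^ 3) (j : Fin k) (a a' : A)
    (t t' : Fin k → ℤ) :
    B (φ (0, Pi.single j 1)) (φ (a, t)) (φ (a', t')) = t j * t' j := by
  classical
  have h0 : F0 0 = 0 := by
    have h1 := hφ 0 0
    have h2 : φ ((0 : A), (0 : Fin k → ℤ)) = 0 := by
      have : ((0 : A), (0 : Fin k → ℤ)) = 0 := rfl
      rw [this, map_zero]
    rw [h2, hF] at h1
    simpa using h1.symm
  have h6 := polar h12 h23 hF (φ (0, Pi.single j 1)) (φ (a, t)) (φ (a', t'))
  simp only [← map_add, Prod.mk_add_mk, hφ, zero_add] at h6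
  have hs : ∀ u : Fin k → ℤ, ∑ i, ((Pi.single j 1 : Fin k → ℤ) + u) i ^ 3 =
      ∑ i, u i ^ 3 + ((1 + u j) ^ 3 - u j ^ 3) := by
    intro u
    rw [← Finset.sum_erase_add _ _ (Finset.mem_univ j),
      ← Finset.sum_erase_add (f := fun i => u i ^ 3) _ (Finset.mem_univ j)]
    have : ∀ i ∈ Finset.univ.erase j, ((Pi.single j 1 : Fin k → ℤ) + u) i ^ 3 = u i ^ 3 := by
      intro i hi
      have hij : i ≠ j := Finset.ne_of_mem_erase hi
      simp [Pi.single_eq_of_ne hij]
    rw [Finset.sum_congr rfl this]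
    simp
    ring
  have hs0 : ∑ i, (Pi.single j 1 : Fin k → ℤ) i ^ 3 = 1 := by
    have := hs 0
    simpa using this
  rw [show (Pi.single j 1 : Fin k → ℤ) + t + t' = Pi.single j 1 + (t + t') from
    add_assoc _ _ _, hs, hs, hs, hs0, h0] at h6
  simp only [Pi.add_apply] at h6
  nlinarith [h6]

/-- the same for the functionals. -/
theorem blow_fun (h12 : ∀ x y z, B x y z = B y x z) (h23 : ∀ x y z, B x y z = B x z y)
    (hF : ∀ x, F x = B x x x) (φ : (A × (Fin k → ℤ)) ≃+ H)
    (hφ : ∀ a t, F (φ (a, t)) = F0 a + ∑ j, t j ^ 3) (j : Fin k) (a : A) (t : Fin k → ℤ) :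
    B (φ (0, Pi.single j 1)) (φ (0, Pi.single j 1)) (φ (a, t)) = t j := by
  rw [blow_spl h12 h23 hF φ hφ]
  simp

theorem blow_mem (h12 : ∀ x y z, B x y z = B y x z) (h23 : ∀ x y z, B x y z = B x z y)
    (hF : ∀ x, F x = B x x x) (φ : (A × (Fin k → ℤ)) ≃+ H)
    (hφ : ∀ a t, F (φ (a, t)) = F0 a + ∑ j, t j ^ 3) (j : Fin k) :
    B (φ (0, Pi.single j 1)) (φ (0, Pi.single j 1)) ∈ Lam B := by
  refine ⟨φ (0, Pi.single j 1), ⟨?_, ?_⟩, rfl⟩
  · rw [blow_spl h12 h23 hF φ hφ]
    simp
  · intro x y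
    obtain ⟨⟨a, t⟩, rfl⟩ := φ.surjective x
    obtain ⟨⟨a', t'⟩, rfl⟩ := φ.surjective y
    rw [blow_spl h12 h23 hF φ hφ, blow_fun h12 h23 hF φ hφ, blow_fun h12 h23 hF φ hφ]

/-- two blow-downs with the same exceptional functionals are isomorphic. -/
theorem iso_of_eq {A' : Type*} [AddCommGroup A'] {k' : ℕ} {F0' : A' → ℤ} {p : H → ℤ}
    {p0 : A → ℤ} {p0' : A' → ℤ}
    (h12 : ∀ x y z, B x y z = B y x z) (h23 : ∀ x y z, B x y z = B x z y)
    (hF : ∀ x, F x = B x x x) (φ : (A × (Fin k → ℤ)) ≃+ H)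
    (hφ : ∀ a t, F (φ (a, t)) = F0 a + ∑ j, t j ^ 3 ∧ p (φ (a, t)) = p0 a + 4 * ∑ j, t j)
    (φ' : (A' × (Fin k' → ℤ)) ≃+ H)
    (hφ' : ∀ a t, F (φ' (a, t)) = F0' a + ∑ j, t j ^ 3 ∧ p (φ' (a, t)) = p0' a + 4 * ∑ j, t j)
    (hS : Set.range (fun j => B (φ (0, Pi.single j 1)) (φ (0, Pi.single j 1))) =
      Set.range (fun j => B (φ' (0, Pi.single j 1)) (φ' (0, Pi.single j 1)))) :
    TIso F0 p0 F0' p0' := by
  have hφ1 := fun a t => (hφ a t).1
  have hφ1' := fun a t => (hφ' a t).1
  have key : ∀ x : H, (φ.symm x).2 = 0 ↔ (φ'.symm x).2 = 0 := by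
    intro x
    have c1 : (φ.symm x).2 = 0 ↔
        ∀ l ∈ Set.range (fun j => B (φ (0, Pi.single j 1)) (φ (0, Pi.single j 1))), l x = 0 := by
      constructor
      · rintro h _ ⟨j, rfl⟩
        have := blow_fun h12 h23 hF φ hφ1 j (φ.symm x).1 (φ.symm x).2
        rw [Prod.mk.eta, AddEquiv.apply_symm_apply] at this
        simp only [this, h, Pi.zero_apply]
      · intro h
        funext j
        have := blow_fun h12 h23 hF φ hφ1 j (φ.symm x).1 (φ.symm x).2
        rw [Prod.mk.eta, AddEquiv.apply_symm_apply] at this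
        rw [← this]
        exact h _ ⟨j, rfl⟩
    have c2 : (φ'.symm x).2 = 0 ↔
        ∀ l ∈ Set.range (fun j => B (φ' (0, Pi.single j 1)) (φ' (0, Pi.single j 1))),
          l x = 0 := by
      constructor
      · rintro h _ ⟨j, rfl⟩
        have := blow_fun h12 h23 hF φ' hφ1' j (φ'.symm x).1 (φ'.symm x).2
        rw [Prod.mk.eta, AddEquiv.apply_symm_apply] at this
        simp only [this, h, Pi.zero_apply]
      · intro h
        funext j
        have := blow_fun h12 h23 hF φ' hφ1' j (φ'.symm x).1 (φ'.symm x).2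
        rw [Prod.mk.eta, AddEquiv.apply_symm_apply] at this
        rw [← this]
        exact h _ ⟨j, rfl⟩
    rw [c1, c2, hS]
  have e1 : ∀ a : A, (φ'.symm (φ (a, 0))).2 = 0 := fun a => (key _).1 (by simp)
  have e2 : ∀ a : A', (φ.symm (φ' (a, 0))).2 = 0 := fun a => (key _).2 (by simp)
  have f1 : ∀ a : A, φ' ((φ'.symm (φ (a, 0))).1, 0) = φ (a, 0) := by
    intro a
    rw [← e1 a, Prod.mk.eta, AddEquiv.apply_symm_apply]
  have f2 : ∀ a : A', φ ((φ.symm (φ' (a, 0))).1, 0) = φ' (a, 0) := by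
    intro a
    rw [← e2 a, Prod.mk.eta, AddEquiv.apply_symm_apply]
  let ψ : A ≃+ A' :=
    { toFun := fun a => (φ'.symm (φ (a, 0))).1
      invFun := fun a => (φ.symm (φ' (a, 0))).1
      left_inv := by
        intro a
        show (φ.symm (φ' ((φ'.symm (φ (a, 0))).1, 0))).1 = a
        rw [f1]; simp
      right_inv := by
        intro a
        show (φ'.symm (φ ((φ.symm (φ' (a, 0))).1, 0))).1 = a
        rw [f2]; simp
      map_add' := by
        intro a b
        have : ((a + b, 0) : A × (Fin k → ℤ)) = (a, 0) + (b, 0) := by simp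
        show (φ'.symm (φ (a + b, 0))).1 = _
        rw [this, map_add, map_add]; rfl }
  refine ⟨ψ, fun a => ?_, fun a => ?_⟩
  · have h1 := (hφ' (ψ a) 0).1
    have h2 := (hφ a 0).1
    have h3 : φ' (ψ a, 0) = φ (a, 0) := f1 a
    rw [h3, h2] at h1
    simpa using h1.symm
  · have h1 := (hφ' (ψ a) 0).2
    have h2 := (hφ a 0).2
    have h3 : φ' (ψ a, 0) = φ (a, 0) := f1 a
    rw [h3, h2] at h1
    simpa using h1.symm

end Blow

/-- **Point blow-ups.**  For every triple `(H, F, p)` (no condition on the discriminant) there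
are, up to isomorphism, at most `2 ^ rank H` triples of which it is the blow-up in some number
of points, and at most `(rank H).choose m` of which it is the blow-up in `m` points. -/
theorem point_bound {H : Type*} [AddCommGroup H] [Module.Finite ℤ H] (F p : H → ℤ)
    (hF : IsCubic F) {ι : Type*} (A : ι → Type*) [∀ i, AddCommGroup (A i)]
    (F0 p0 : ∀ i, A i → ℤ) (k : ι → ℕ) (hb : ∀ i, PointBlowUp (k i) (F0 i) (p0 i) F p)
    (hne : ∀ i j, i ≠ j → ¬ TIso (F0 i) (p0 i) (F0 j) (p0 j)) :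
    Finite ι ∧ Nat.card ι ≤ 2 ^ finrank ℤ H ∧
      ∀ m, (∀ i, k i = m) → Nat.card ι ≤ (finrank ℤ H).choose m := by
  classical
  obtain ⟨B, h12, h23, hB⟩ := hF
  choose φ hφ using hb
  obtain ⟨L, hL, hLc⟩ := lam_fin (B := B) h12 h23
  let S : ι → Finset (H →+ ℤ) := fun i =>
    Finset.univ.image (fun j : Fin (k i) => B (φ i (0, Pi.single j 1)) (φ i (0, Pi.single j 1)))
  have hSL : ∀ i, S i ⊆ L := by
    intro i l hl
    obtain ⟨j, _, rfl⟩ := Finset.mem_image.1 hl
    have := blow_mem h12 h23 hB (φ i) (fun a t => (hφ i a t).1) j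
    rw [← hL] at this
    exact this
  have hScard : ∀ i, (S i).card = k i := by
    intro i
    have hinj : Function.Injective (fun j : Fin (k i) =>
        B (φ i (0, Pi.single j 1)) (φ i (0, Pi.single j 1))) := by
      intro j j' hjj
      by_contra hne'
      have h1 := congrArg (fun l : H →+ ℤ => l (φ i (0, Pi.single j 1))) hjj
      simp only [blow_fun h12 h23 hB (φ i) (fun a t => (hφ i a t).1)] at h1
      rw [Pi.single_eq_same, Pi.single_eq_of_ne (Ne.symm hne')] at h1
      exact one_ne_zero h1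
    rw [Finset.card_image_of_injective _ hinj, Finset.card_univ, Fintype.card_fin]
  have hSinj : Function.Injective S := by
    intro i j hij
    by_contra hne'
    apply hne i j hne'
    refine iso_of_eq (p := p) h12 h23 hB (φ i) (hφ i) (φ j) (hφ j) ?_
    have h1 := congrArg (fun s : Finset (H →+ ℤ) => (↑s : Set (H →+ ℤ))) hij
    simpa [S, Finset.coe_image] using h1
  have hfin : Finite ι := by
    have : Function.Injective (fun i => (⟨S i, Finset.mem_powerset.2 (hSL i)⟩ :
        L.powerset)) := fun i j h => hSinj (congrArg Subtype.val h)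
    exact Finite.of_injective _ this
  refine ⟨hfin, ?_, ?_⟩
  · have hinj : Function.Injective (fun i => (⟨S i, Finset.mem_powerset.2 (hSL i)⟩ :
        L.powerset)) := fun i j h => hSinj (congrArg Subtype.val h)
    have h1 := Nat.card_le_card_of_injective _ hinj
    rw [Nat.card_eq_fintype_card (α := L.powerset), Fintype.card_coe,
      Finset.card_powerset] at h1
    exact h1.trans (Nat.pow_le_pow_right (by norm_num) hLc)
  · intro m hm
    have hinj : Function.Injective (fun i => (⟨S i, Finset.mem_powersetCard.2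
        ⟨hSL i, (hScard i).trans (hm i)⟩⟩ : L.powersetCard m)) :=
      fun i j h => hSinj (congrArg Subtype.val h)
    have h1 := Nat.card_le_card_of_injective _ hinj
    rw [Nat.card_eq_fintype_card (α := L.powersetCard m), Fintype.card_coe,
      Finset.card_powersetCard] at h1
    exact h1.trans (Nat.choose_le_choose m hLc)

end Pool.Agent.MP77.H10
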