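import Mathlib
import Pool.Agent.Lib.MP_77ebfb_ag.H10.Point

/-!
# Contractions of divisors to points: at most 2 ^ rank classes downstairs

If a divisor `E` is contracted to a point then `E ^ 3 <> 0`, the image of `H^2` downstairs is
the kernel of `x -> E E x`, and `E x y = 0` as soon as `x` comes from downstairs; so
`E^3 * (E x y) = (E E x) (E E y)` for all `x, y`.  Such an `E` is called isolated.
-/

namespace Pool.Agent.MP77.H10

open Finset Module

variable {H : Type*} [AddCommGroup H] (B : H →+ H →+ H →+ ℤ)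

/-- `E` is isolated in the subgroup `K`. -/
def IsoVec (K : AddSubgroup H) (E : H) : Prop :=
  E ∈ K ∧ B E E E ≠ 0 ∧ ∀ x ∈ K, ∀ y ∈ K, B E E E * B E x y = B E E x * B E E y

/-- the subgroups obtained from `H` by successively passing from `K` to the kernel of
`x -> E E x` in `K`, `E` isolated in `K`. -/
inductive Reach : AddSubgroup H → Prop
  | top : Reach ⊤
  | step {K : AddSubgroup H} {E : H} : Reach K → IsoVec B K E → Reach (K ⊓ (B E E).ker)

variable {B}

theorem ker_eq (h12 : ∀ x y z, B x y z = B y x z) {E E' : H} (hE : IsoVec B ⊤ E)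
    (hE' : IsoVec B ⊤ E') (h : B E E E' ≠ 0) : (B E E).ker = (B E' E').ker := by
  obtain ⟨-, h1, h2⟩ := hE
  obtain ⟨-, h1', h2'⟩ := hE'
  have key : ∀ x, B E' E' E' * B E E E' * B E E x = B E E E * B E' E' E * B E' E' x := by
    intro x
    have a1 := h2 E' trivial x trivial
    have a2 := h2' E trivial x trivial
    rw [h12 E' E x] at a2
    linear_combination B E E E * a2 - B E' E' E' * a1
  have k1 := key E
  have hne : B E' E' E ≠ 0 := by
    intro h0
    rw [h0, mul_zero] at k1
    rcases mul_eq_zero.1 k1 with h3 | h3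
    · exact (mul_ne_zero h1' h) h3
    · exact h1 h3
  ext x
  rw [AddMonoidHom.mem_ker, AddMonoidHom.mem_ker]
  constructor
  · intro hx
    have := key x
    rw [hx, mul_zero] at this
    exact (mul_eq_zero.1 this.symm).resolve_left (mul_ne_zero h1 hne)
  · intro hx
    have := key x
    rw [hx, mul_zero] at this
    exact (mul_eq_zero.1 this).resolve_left (mul_ne_zero h1' h)

variable (B) in
/-- the kernels of the isolated vectors. -/
def Ker : Set (AddSubgroup H) := {K | ∃ E, IsoVec B ⊤ E ∧ (B E E).ker = K}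

theorem ker_fin [Module.Finite ℤ H] (h12 : ∀ x y z, B x y z = B y x z) :
    ∃ L : Finset (AddSubgroup H), (↑L : Set (AddSubgroup H)) = Ker B ∧
      L.card ≤ finrank ℤ H := by
  classical
  choose! e he using (fun K (hK : K ∈ Ker B) => hK :
    ∀ K ∈ Ker B, ∃ E, IsoVec B ⊤ E ∧ (B E E).ker = K)
  have hval : ∀ K ∈ Ker B, ∀ K' ∈ Ker B, K ≠ K' → B (e K) (e K) (e K') = 0 := by
    intro K hK K' hK' hne
    by_contra h0
    apply hne
    have h1 := ker_eq h12 (he K hK).1 (he K' hK').1 h0
    rw [(he K hK).2, (he K' hK').2] at h1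
    exact h1
  have hli : LinearIndependent ℤ (fun K : Ker B => e K.1) := by
    rw [linearIndependent_iff']
    intro s g hg K hK
    have h1 := congrArg (fun x => B (e K.1) (e K.1) x) hg
    simp only [map_sum, map_zero, map_zsmul] at h1
    rw [Finset.sum_eq_single K] at h1
    · have h2 := (he K.1 K.2).1.2.1
      rw [smul_eq_mul] at h1
      exact (mul_eq_zero.1 h1).resolve_right h2
    · intro K' _ hne
      rw [hval _ K.2 _ K'.2 (fun h => hne (Subtype.ext h.symm))]
      simp
    · intro h; exact absurd hK h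
  haveI : Finite (Ker B) := hli.finite
  haveI : Fintype (Ker B) := Fintype.ofFinite _
  refine ⟨(Ker B).toFinset, by simp, ?_⟩
  rw [Set.toFinset_card]
  exact hli.fintype_card_le_finrank

theorem iso_up (h12 : ∀ x y z, B x y z = B y x z) (h23 : ∀ x y z, B x y z = B x z y)
    {K : AddSubgroup H} {E1 E : H} (h1 : IsoVec B K E1)
    (hE : IsoVec B (K ⊓ (B E1 E1).ker) E) : IsoVec B K E := by
  obtain ⟨hm, hne, hmul⟩ := h1
  obtain ⟨⟨hEK, hEk⟩, hEn, hEm⟩ := hE
  have hEk' : B E1 E1 E = 0 := hEk
  refine ⟨hEK, hEn, ?_⟩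
  have hz : ∀ z ∈ K, B E E1 z = 0 := by
    intro z hz
    have := hmul E hEK z hz
    rw [hEk', zero_mul, h12 E1 E z] at this
    exact (mul_eq_zero.1 this).resolve_left hne
  have hmem : ∀ x ∈ K, (B E1 E1 E1) • x - (B E1 E1 x) • E1 ∈ K ⊓ (B E1 E1).ker := by
    intro x hx
    refine ⟨K.sub_mem (K.zsmul_mem hx _) (K.zsmul_mem hm _), ?_⟩
    show B E1 E1 (_ - _) = 0
    rw [map_sub, map_zsmul, map_zsmul]
    simp only [smul_eq_mul]
    ring
  intro x hx y hy
  have h2 := hEm _ (hmem x hx) _ (hmem y hy)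
  have hEE1 : B E E E1 = 0 := by rw [h23]; exact hz E hEK
  simp only [map_sub, map_zsmul, AddMonoidHom.sub_apply, smul_eq_mul] at h2
  have e1 : B E ((B E1 E1 E1) • x) = (B E1 E1 E1) • B E x := map_zsmul _ _ _
  simp only [AddMonoidHom.coe_smul, Pi.smul_apply, smul_eq_mul, hz y hy, hz E1 hm, hEE1] at h2
  rw [h23 E x E1, hz x hx] at h2
  have h3 : (B E1 E1 E1) ^ 2 * (B E E E * B E x y) = (B E1 E1 E1) ^ 2 * (B E E x * B E E y) := by
    linear_combination h2
  exact mul_left_cancel₀ (pow_ne_zero 2 hne) h3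

theorem reach_up (h12 : ∀ x y z, B x y z = B y x z) (h23 : ∀ x y z, B x y z = B x z y)
    {K : AddSubgroup H} (hK : Reach B K) :
    (∀ E, IsoVec B K E → IsoVec B ⊤ E) ∧
      ∃ S : Finset (AddSubgroup H), (∀ M ∈ S, M ∈ Ker B) ∧ K = S.inf id := by
  classical
  induction hK with
  | top => exact ⟨fun E h => h, ∅, by simp, by simp⟩
  | @step K E hK hE ih =>
    obtain ⟨h1, S, hS, rfl⟩ := ih
    refine ⟨fun E' h => h1 E' (iso_up h12 h23 hE h), insert (B E E).ker S, ?_, ?_⟩
    · intro M hM
      rcases Finset.mem_insert.1 hM with rfl | hM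
      · exact ⟨E, h1 E hE, rfl⟩
      · exact hS M hM
    · rw [Finset.inf_insert, id, inf_comm]

/-- at most `2 ^ rank H` subgroups are reached. -/
theorem reach_fin [Module.Finite ℤ H] (h12 : ∀ x y z, B x y z = B y x z)
    (h23 : ∀ x y z, B x y z = B x z y) :
    ∃ L : Finset (AddSubgroup H), (∀ K, Reach B K → K ∈ L) ∧
      L.card ≤ 2 ^ finrank ℤ H := by
  classical
  obtain ⟨L, hL, hc⟩ := ker_fin (B := B) h12
  refine ⟨L.powerset.image (fun S => S.inf id), ?_, ?_⟩
  · intro K hK
    obtain ⟨-, S, hS, rfl⟩ := reach_up h12 h23 hK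
    refine Finset.mem_image.2 ⟨S, Finset.mem_powerset.2 ?_, rfl⟩
    intro M hM
    have : M ∈ (↑L : Set (AddSubgroup H)) := by rw [hL]; exact hS M hM
    exact this
  · refine Finset.card_image_le.trans ?_
    rw [Finset.card_powerset]
    exact Nat.pow_le_pow_right (by norm_num) hc

/-- `(A, F0, p0)` is obtained from `(H, F, p)` by contractions of divisors to points: it is
isomorphic to the restriction of `(H, F, p)` to a reached subgroup. -/
def PointContraction {A : Type*} [AddCommGroup A] (F0 p0 : A → ℤ) (B : H →+ H →+ H →+ ℤ)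
    (p : H → ℤ) : Prop :=
  ∃ K : AddSubgroup H, Reach B K ∧ TIso F0 p0 (fun x : K => B x x x) (fun x : K => p x)

/-- **Contractions to points.**  For every triple `(H, F, p)`, `F x = B x x x`, there are up to
isomorphism at most `2 ^ rank H` triples obtained by contractions of divisors to points. -/
theorem contr_bound [Module.Finite ℤ H] (h12 : ∀ x y z, B x y z = B y x z)
    (h23 : ∀ x y z, B x y z = B x z y) (p : H → ℤ) {ι : Type*} (A : ι → Type*)
    [∀ i, AddCommGroup (A i)] (F0 p0 : ∀ i, A i → ℤ)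
    (hb : ∀ i, PointContraction (F0 i) (p0 i) B p)
    (hne : ∀ i j, i ≠ j → ¬ TIso (F0 i) (p0 i) (F0 j) (p0 j)) :
    Finite ι ∧ Nat.card ι ≤ 2 ^ finrank ℤ H := by
  classical
  obtain ⟨L, hL, hc⟩ := reach_fin (B := B) h12 h23
  choose K hK hiso using hb
  have hinj : Function.Injective (fun i => (⟨K i, hL _ (hK i)⟩ : L)) := by
    intro i j hij
    by_contra hne'
    have hKK : K i = K j := congrArg Subtype.val hij
    apply hne i j hne'
    obtain ⟨φ, hφ1, hφ2⟩ := hiso i
    obtain ⟨ψ, hψ1, hψ2⟩ := hiso j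
    revert φ
    rw [hKK]
    intro φ hφ1 hφ2
    refine ⟨φ.trans ψ.symm, fun a => ?_, fun a => ?_⟩
    · rw [← hψ1, AddEquiv.trans_apply, AddEquiv.apply_symm_apply]
      exact hφ1 a
    · rw [← hψ2, AddEquiv.trans_apply, AddEquiv.apply_symm_apply]
      exact hφ2 a
  have hfin : Finite ι := Finite.of_injective _ hinj
  refine ⟨hfin, ?_⟩
  have h1 := Nat.card_le_card_of_injective _ hinj
  rw [Nat.card_eq_fintype_card (α := L), Fintype.card_coe] at h1
  exact h1.trans hc

theorem mem_finf {α : Type*} (s : Finset α) (f : α → AddSubgroup H) (x : H) :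
    x ∈ s.inf f ↔ ∀ i ∈ s, x ∈ f i := by
  rw [Finset.inf_eq_iInf]
  simp [AddSubgroup.mem_iInf]

/-- a blow-up in points is a contraction of divisors to points. -/
theorem blow_contr (h12 : ∀ x y z, B x y z = B y x z) (h23 : ∀ x y z, B x y z = B x z y)
    {A : Type*} [AddCommGroup A] {k : ℕ} {F0 p0 : A → ℤ} {F p : H → ℤ}
    (hF : ∀ x, F x = B x x x) (hb : PointBlowUp k F0 p0 F p) : PointContraction F0 p0 B p := by
  classical
  obtain ⟨φ, hφ⟩ := hb
  have hφ1 := fun a t => (hφ a t).1
  let E : Fin k → H := fun j => φ (0, Pi.single j 1)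
  have hE : ∀ j a t, B (E j) (E j) (φ (a, t)) = t j := fun j a t =>
    blow_fun h12 h23 hF φ hφ1 j a t
  have hreach : ∀ s : Finset (Fin k), Reach B (s.inf fun j => (B (E j) (E j)).ker) := by
    intro s
    induction s using Finset.induction_on with
    | empty => simpa using Reach.top
    | @insert j s hj ih =>
      rw [Finset.inf_insert, inf_comm]
      refine Reach.step ih ⟨?_, ?_, ?_⟩
      · rw [mem_finf]
        intro m hm
        show B (E m) (E m) (E j) = 0
        have hmj : m ≠ j := fun h => hj (h ▸ hm)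
        rw [show E j = φ (0, Pi.single j 1) from rfl, hE, Pi.single_eq_of_ne hmj]
      · have : B (E j) (E j) (E j) = 1 := by
          rw [show E j = φ (0, Pi.single j 1) from rfl]
          rw [blow_spl h12 h23 hF φ hφ1]
          simp
        rw [this]; exact one_ne_zero
      · intro x _ y _
        have h1 : B (E j) (E j) (E j) = 1 := by
          rw [show E j = φ (0, Pi.single j 1) from rfl]
          rw [blow_spl h12 h23 hF φ hφ1]
          simp
        obtain ⟨⟨a, t⟩, rfl⟩ := φ.surjective x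
        obtain ⟨⟨a', t'⟩, rfl⟩ := φ.surjective y
        rw [h1, hE, hE, show E j = φ (0, Pi.single j 1) from rfl,
          blow_spl h12 h23 hF φ hφ1, one_mul]
  refine ⟨_, hreach Finset.univ, ?_⟩
  set K := (Finset.univ : Finset (Fin k)).inf fun j => (B (E j) (E j)).ker with hK
  have hmem : ∀ x, x ∈ K ↔ (φ.symm x).2 = 0 := by
    intro x
    rw [hK, mem_finf]
    constructor
    · intro h
      funext j
      have h1 : B (E j) (E j) x = 0 := h j (Finset.mem_univ j)
      have h2 := hE j (φ.symm x).1 (φ.symm x).2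
      rw [Prod.mk.eta, AddEquiv.apply_symm_apply, h1] at h2
      exact h2.symm
    · intro h j _
      show B (E j) (E j) x = 0
      have h2 := hE j (φ.symm x).1 (φ.symm x).2
      rw [Prod.mk.eta, AddEquiv.apply_symm_apply, h] at h2
      exact h2
  let ψ : A ≃+ K :=
    { toFun := fun a => ⟨φ (a, 0), (hmem _).2 (by simp)⟩
      invFun := fun x => (φ.symm x.1).1
      left_inv := by intro a; simp
      right_inv := by
        intro x
        apply Subtype.ext
        show φ ((φ.symm x.1).1, 0) = x.1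
        have := (hmem x.1).1 x.2
        rw [← this, Prod.mk.eta, AddEquiv.apply_symm_apply]
      map_add' := by
        intro a b
        apply Subtype.ext
        show φ (a + b, 0) = φ (a, 0) + φ (b, 0)
        rw [← map_add, Prod.mk_add_mk, add_zero] }
  refine ⟨ψ, fun a => ?_, fun a => ?_⟩
  · show B (φ (a, 0)) (φ (a, 0)) (φ (a, 0)) = F0 a
    rw [← hF, (hφ a 0).1]; simp
  · show p (φ (a, 0)) = p0 a
    rw [(hφ a 0).2]; simp

end Pool.Agent.MP77.H10
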