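import Mathlib
import Pool.Agent.Lib.MP_77ebfb_ag.H10.Point

/-!
# One curve blow-up: infinitely many classes downstairs

`(H, F, p)` is the blow-up of `(A, F0, p0)` in a curve with class `C : A → Z` and
`E ^ 3 = e` (minus the degree of the normal bundle) when `H = A + Z E` with
`F (a, t) = F0 a - 3 t^2 C a + e t^3`, `p (a, t) = p0 a - 3 C a + e t`.
-/

namespace Pool.Agent.MP77.H10

/-- blow-up in a smooth curve with class `C` and `E ^ 3 = e`. -/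
def CurveBlowUp {A H : Type*} [AddCommGroup A] [AddCommGroup H] (F0 p0 : A → ℤ) (C : A →+ ℤ)
    (e : ℤ) (F p : H → ℤ) : Prop :=
  ∃ φ : (A × ℤ) ≃+ H, ∀ a t, F (φ (a, t)) = F0 a - 3 * t ^ 2 * C a + e * t ^ 3 ∧
    p (φ (a, t)) = p0 a - 3 * C a + e * t

/-- Numerical data of a smooth minimal threefold of Picard number two: symmetric trilinear
form `B`, linear form `p`, canonical class `k`, satisfying Riemann-Roch integrality
(`c2 D = (k k D - p D) / 2`), nefness of the basis and of `k`, and the inequalities of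
Miyaoka and Yau. -/
structure MinimalNumbers (B : ℤ × ℤ → ℤ × ℤ → ℤ × ℤ → ℤ) (p c2 : ℤ × ℤ → ℤ) (k : ℤ × ℤ) :
    Prop where
  symm₁ : ∀ x y z, B x y z = B y x z
  symm₂ : ∀ x y z, B x y z = B x z y
  add_left : ∀ x x' y z, B (x + x') y z = B x y z + B x' y z
  p_add : ∀ x y, p (x + y) = p x + p y
  c2_def : ∀ x, 2 * c2 x = B k k x - p x
  rr : ∀ D, (12 : ℤ) ∣ 2 * B D D D - 3 * B D D k + B D k k + c2 D
  chi : (24 : ℤ) ∣ c2 k
  nef : ∀ D D' D'' : ℤ × ℤ, 0 ≤ D.1 → 0 ≤ D.2 → 0 ≤ D'.1 → 0 ≤ D'.2 → 0 ≤ D''.1 → 0 ≤ D''.2 →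
    0 ≤ B D D' D''
  k_nef : 0 ≤ k.1 ∧ 0 ≤ k.2
  big : 0 < B k k k
  miyaoka : ∀ D : ℤ × ℤ, 0 ≤ D.1 → 0 ≤ D.2 → B k k D ≤ 3 * c2 D
  yau : 3 * B k k k ≤ 8 * c2 k

/-- the trilinear form with `D1^3 = 24`, `D1^2 D2 = 24`, `D2^2 = 0`. -/
def B2 (x y z : ℤ × ℤ) : ℤ :=
  24 * (x.1 * y.1 * z.1) + 24 * (x.1 * y.1 * z.2 + x.1 * y.2 * z.1 + x.2 * y.1 * z.1)

def p2 (j : ℤ) (x : ℤ × ℤ) : ℤ := 288 * j * x.1

def k2 (j : ℤ) : ℤ × ℤ := (2, 10 * j)

def c2 (j : ℤ) (x : ℤ × ℤ) : ℤ := (48 + 336 * j) * x.1 + 48 * x.2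

theorem numbers (j : ℤ) (hj : 0 ≤ j) : MinimalNumbers B2 (p2 j) (c2 j) (k2 j) where
  symm₁ := by intro x y z; simp only [B2]; ring
  symm₂ := by intro x y z; simp only [B2]; ring
  add_left := by intro x x' y z; simp only [B2, Prod.fst_add, Prod.snd_add]; ring
  p_add := by intro x y; simp only [p2, Prod.fst_add]; ring
  c2_def := by intro x; simp only [c2, B2, k2, p2]; ring
  rr := by
    intro D
    simp only [c2, B2, k2]
    exact ⟨4 * (D.1 * D.1 * D.1) + 12 * (D.1 * D.1 * D.2)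
      - 12 * (D.1 * D.1) - 6 * (10 * j * (D.1 * D.1) + 4 * (D.1 * D.2))
      + (8 * D.1 + 80 * j * D.1 + 8 * D.2) + ((4 + 28 * j) * D.1 + 4 * D.2), by ring⟩
  chi := by
    simp only [c2, k2]
    exact ⟨4 + 48 * j, by ring⟩
  nef := by
    intro D D' D'' h1 h2 h3 h4 h5 h6
    simp only [B2]
    positivity
  k_nef := by simp only [k2]; constructor <;> omega
  big := by simp only [B2, k2]; nlinarith
  miyaoka := by
    intro D h1 h2
    simp only [B2, k2, c2]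
    nlinarith [mul_nonneg hj h1, mul_nonneg hj h2]
  yau := by simp only [B2, k2, c2]; nlinarith

/-- the class of the centre: `C.D1 = 7 + 144 j`, `C.D2 = 0`. -/
def Cj (j : ℤ) : ℤ × ℤ →+ ℤ :=
  AddMonoidHom.mk' (fun x => (7 + 144 * j) * x.1) (by
    intro x y; simp only [Prod.fst_add]; ring)

/-- the cubic form of the blow-up. -/
def F3 (x : ℤ × ℤ × ℤ) : ℤ :=
  24 * x.1 ^ 3 + 72 * x.1 ^ 2 * x.2.1 - 21 * x.1 * x.2.2 ^ 2 - 2 * x.2.2 ^ 3

def p3 (x : ℤ × ℤ × ℤ) : ℤ := -21 * x.1 - 2 * x.2.2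

/-- the change of coordinates. -/
def phi (j : ℤ) : ((ℤ × ℤ) × ℤ) ≃+ (ℤ × ℤ × ℤ) where
  toFun v := (v.1.1, v.1.2 + (42 * j + 432 * j ^ 2) * v.2 + (1512 * j ^ 2 + 10368 * j ^ 3) * v.1.1,
    v.2 + 72 * j * v.1.1)
  invFun w := ((w.1, w.2.1 - (42 * j + 432 * j ^ 2) * (w.2.2 - 72 * j * w.1) -
    (1512 * j ^ 2 + 10368 * j ^ 3) * w.1), w.2.2 - 72 * j * w.1)
  left_inv v := by
    obtain ⟨⟨x, s⟩, t⟩ := v
    simp only [Prod.mk.injEq]
    refine ⟨⟨trivial, by ring⟩, by ring⟩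
  right_inv w := by
    obtain ⟨x, s, t⟩ := w
    simp only [Prod.mk.injEq]
    refine ⟨trivial, by ring, by ring⟩
  map_add' v w := by
    obtain ⟨⟨x, s⟩, t⟩ := v
    obtain ⟨⟨x', s'⟩, t'⟩ := w
    simp only [Prod.mk_add_mk, Prod.mk.injEq]
    refine ⟨trivial, by ring, by ring⟩

theorem blow (j : ℤ) :
    CurveBlowUp (fun x => B2 x x x) (p2 j) (Cj j) (-2) F3 p3 := by
  refine ⟨phi j, fun a t => ?_⟩
  obtain ⟨x, s⟩ := a
  have h1 : (phi j ((x, s), t)) = (x, s + (42 * j + 432 * j ^ 2) * t +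
    (1512 * j ^ 2 + 10368 * j ^ 3) * x, t + 72 * j * x) := rfl
  have h2 : Cj j (x, s) = (7 + 144 * j) * x := rfl
  rw [h1]
  simp only [F3, p3, B2, p2, h2]
  constructor <;> ring

theorem not_iso {i j : ℤ} (hi : 0 ≤ i) (hj : 0 ≤ j) (hij : i ≠ j) :
    ¬ TIso (fun x => B2 x x x) (p2 i) (fun x => B2 x x x) (p2 j) := by
  rintro ⟨φ, -, h⟩
  -- the image of p is 288 i Z resp. 288 j Z
  have h1 : p2 j (φ (1, 0)) = 288 * i := by rw [h]; simp [p2]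
  have h2 : p2 i (φ.symm (1, 0)) = 288 * j := by
    have := h (φ.symm (1, 0))
    rw [AddEquiv.apply_symm_apply] at this
    rw [← this]; simp [p2]
  have d1 : j ∣ i := by
    refine ⟨(φ (1, 0)).1, ?_⟩
    simp only [p2] at h1
    nlinarith
  have d2 : i ∣ j := by
    refine ⟨(φ.symm (1, 0)).1, ?_⟩
    simp only [p2] at h2
    nlinarith
  exact hij (Int.dvd_antisymm hi hj d2 d1)

/-- **One curve blow-up.**  One triple `(Z^3, F, p)` is, for every `j`, the blow-up of a triple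
`(Z^2, F0, p_j)` in a curve of class `C_j` and genus `g_j` (adjunction: the degree of the
normal bundle is `2 g_j - 2 - k_j.C_j = 2`), all numerical constraints of smooth minimal
threefolds of general type hold, and the `(Z^2, F0, p_j)` are pairwise non-isomorphic. -/
theorem curve_infinite :
    ∃ (F p : ℤ × ℤ × ℤ → ℤ) (B : ℤ × ℤ → ℤ × ℤ → ℤ × ℤ → ℤ) (q c : ℕ → ℤ × ℤ → ℤ)
      (k : ℕ → ℤ × ℤ) (C : ℕ → (ℤ × ℤ →+ ℤ)) (g : ℕ → ℕ),
      (∀ n, MinimalNumbers B (q n) (c n) (k n)) ∧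
      (∀ n, ∀ D : ℤ × ℤ, 0 ≤ D.1 → 0 ≤ D.2 → 0 ≤ C n D) ∧
      (∀ n, (2 * (g n : ℤ) - 2 - C n (k n) = 2)) ∧
      (∀ n, CurveBlowUp (fun x => B x x x) (q n) (C n) (-2) F p) ∧
      ∀ m n, m ≠ n → ¬ TIso (fun x => B x x x) (q m) (fun x => B x x x) (q n) := by
  refine ⟨F3, p3, B2, fun n => p2 n, fun n => c2 n, fun n => k2 n, fun n => Cj n,
    fun n => 9 + 144 * n, fun n => numbers n (by positivity), ?_, ?_, fun n => blow n, ?_⟩
  · intro n D h1 h2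
    show 0 ≤ (7 + 144 * (n : ℤ)) * D.1
    positivity
  · intro n
    show 2 * ((9 + 144 * n : ℕ) : ℤ) - 2 - (7 + 144 * (n : ℤ)) * 2 = 2
    push_cast; ring
  · intro m n hmn
    exact not_iso (by positivity) (by positivity) (by exact_mod_cast hmn)

end Pool.Agent.MP77.H10
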